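import Pool.Agent.Helper33.HM.Basic
import Pool.Agent.Helper28.HM.FnTools

/-!
# Project HM, module A0
-/

set_option autoImplicit false
set_option linter.unusedSectionVars false

namespace Pool.Agent.Helper33.HM

universe u

variable {B : Type u} [CompleteBooleanAlgebra B] {S : Set B}

private theorem h82_le_subV_iff {C Z : List Bool → B} {b : B} :
    b ≤ subV C Z ↔ ∀ σ, b ⊓ C σ ≤ Z σ := by
  unfold subV
  simp only [le_iInf_iff, le_himp_iff]

private theorem h82_smallV_mono (k : ℕ) (C Z : List Bool → B) :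
    subV C Z ⊓ smallV k Z ≤ smallV k C := by
  unfold smallV
  simp only [inf_iSup_eq]
  refine iSup_le fun n => iSup_le fun G => iSup_le fun hG => ?_
  refine le_iSup_of_le n (le_iSup_of_le G (le_iSup_of_le hG ?_))
  refine le_iInf fun σ => le_iInf fun hσ => ?_
  rw [le_compl_iff_disjoint_right, disjoint_iff, ← le_bot_iff]
  have h1 : subV C Z ⊓ C σ ≤ Z σ := h82_le_subV_iff.1 le_rfl σ
  have h2 : (⨅ σ : List Bool, ⨅ _ : σ.length = n ∧ σ ∉ G, (Z σ)ᶜ) ≤ (Z σ)ᶜ :=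
    (iInf_le _ σ).trans (iInf_le _ hσ)
  calc subV C Z ⊓ (⨅ σ : List Bool, ⨅ _ : σ.length = n ∧ σ ∉ G, (Z σ)ᶜ) ⊓ C σ
      ≤ (Z σ)ᶜ ⊓ Z σ :=
        le_inf ((inf_le_left.trans inf_le_right).trans h2)
          ((inf_le_inf_right _ inf_le_left).trans h1)
    _ = ⊥ := compl_inf_eq_bot

/-- shrink `b` so that finitely many values of a name are decided -/
private theorem h82_decide (hS : IsSub S) {h0 : ℕ → ℕ → B} (hh : IsFn S h0) {b : B} (hb : b ∈ S)
    (hb0 : b ≠ ⊥) (m : ℕ) :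
    ∃ ρ : List ℕ, ρ.length = m ∧ ∃ c ∈ S, c ≠ ⊥ ∧ c ≤ b ∧
      ∀ (i : ℕ) (h : i < ρ.length), c ≤ eqN (h0 i) ρ[i] := by
  induction m with
  | zero =>
    refine ⟨[], rfl, b, hb, hb0, le_rfl, ?_⟩
    intro i h
    simp at h
  | succ m ih =>
    obtain ⟨ρ, hρ, c, hc, hc0, hcb, hcρ⟩ := ih
    have h1 : c ≤ ⨆ j, eqN (h0 m) j := by
      rw [iSup_eqN (hh.tot m)]
      exact le_top
    obtain ⟨j, hj⟩ := exists_inf_ne_bot hc0 h1
    refine ⟨ρ ++ [j], by simp [hρ], c ⊓ eqN (h0 m) j, ?_, hj, inf_le_left.trans hcb, ?_⟩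
    · exact hS.inf_mem hc (eqN_mem hS (hh.mem m) j)
    · intro i hi
      rw [List.length_append, List.length_singleton, hρ] at hi
      rcases Nat.lt_succ_iff_lt_or_eq.mp hi with h2 | h2
      · have h3 : i < ρ.length := by omega
        rw [List.getElem_append_left h3]
        exact inf_le_left.trans (hcρ i h3)
      · subst h2
        have h4 : (ρ ++ [j])[i]'(by simp [hρ]) = j := by
          simp [← hρ]
        rw [h4]
        exact inf_le_right

/-- finitely many words can be killed by one name -/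
private theorem h82_kill (hS : IsSub S) (D : (ℕ → ℕ → B) → List Bool → B)
    (hD : ∀ h, IsFn S h → (∀ σ, D h σ ∈ S) ∧ IsPr (D h))
    (hmono : ∀ h h', IsFn S h → IsFn S h' → ∀ σ, leF h h' ⊓ D h' σ ≤ D h σ)
    (ρ : List ℕ) {c1 : B} (hc1 : c1 ∈ S) (hc10 : c1 ≠ ⊥) (W : Finset (List Bool))
    (hW : ∀ σ ∈ W, c1 ≤ (infC S D ρ σ)ᶜ) :
    ∃ c ∈ S, c ≠ ⊥ ∧ c ≤ c1 ∧ ∃ f, IsFn S f ∧ ExtF ρ f ∧ ∀ σ ∈ W, c ≤ (D f σ)ᶜ := by
  classical
  induction W using Finset.induction_on with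
  | empty =>
    refine ⟨c1, hc1, hc10, le_rfl, chk (fun i => if h : i < ρ.length then ρ[i] else 0),
      isFn_chk hS _, ?_, by simp⟩
    intro i h
    simp [chk, h]
  | insert σ W hσ ih =>
    obtain ⟨c, hc, hc0, hcc, f, hf, hfρ, hfW⟩ := ih fun τ hτ => hW τ (Finset.mem_insert_of_mem hτ)
    have h1 : c ≤ (infC S D ρ σ)ᶜ := hcc.trans (hW σ (Finset.mem_insert_self _ _))
    have h2 : (infC S D ρ σ)ᶜ = ⨆ f : ℕ → ℕ → B, ⨆ _ : IsFn S f ∧ ExtF ρ f, (D f σ)ᶜ := by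
      unfold infC
      rw [compl_iInf]
      simp_rw [compl_iInf]
    rw [h2] at h1
    obtain ⟨f', hf'⟩ := exists_inf_ne_bot hc0 h1
    rw [inf_iSup_eq] at hf'
    have h3 : ∃ _ : IsFn S f' ∧ ExtF ρ f', c ⊓ (D f' σ)ᶜ ≠ ⊥ := by
      by_contra hcon
      apply hf'
      rw [iSup_eq_bot]
      intro h
      by_contra h4
      exact hcon ⟨h, h4⟩
    obtain ⟨⟨hf1, hf2⟩, hf3⟩ := h3
    have hg : IsFn S (maxF f f') := isFn_maxF hS hf hf1
    have key : ∀ τ, D (maxF f f') τ ≤ D f τ := by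
      intro τ
      have := hmono f (maxF f f') hf hg τ
      rwa [leF_maxF_left, top_inf_eq] at this
    have key' : ∀ τ, D (maxF f f') τ ≤ D f' τ := by
      intro τ
      have := hmono f' (maxF f f') hf1 hg τ
      rwa [leF_maxF_right, top_inf_eq] at this
    refine ⟨c ⊓ (D f' σ)ᶜ, hS.inf_mem hc (hS.compl_mem _ ((hD f' hf1).1 σ)), hf3,
      inf_le_left.trans hcc, maxF f f', hg, extF_maxF hfρ hf2, ?_⟩
    intro τ hτ
    rw [Finset.mem_insert] at hτ
    rcases hτ with rfl | hτ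
    · exact inf_le_right.trans (compl_le_compl (key' _))
    · exact inf_le_left.trans ((hfW τ hτ).trans (compl_le_compl (key _)))

private theorem h82_infC_mem (hS : IsSub S) (D : (ℕ → ℕ → B) → List Bool → B)
    (hD : ∀ h, IsFn S h → (∀ σ, D h σ ∈ S) ∧ IsPr (D h)) (ρ : List ℕ) (σ : List Bool) :
    infC S D ρ σ ∈ S := by
  unfold infC
  exact hS.iInf_mem fun f => hS.iInf_mem fun hf => (hD f hf.1).1 σ

/-- one step -/
private theorem h82_step (hc : CCC B) (hS : IsSub S) (D : (ℕ → ℕ → B) → List Bool → B)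
    (hD : ∀ h, IsFn S h → (∀ σ, D h σ ∈ S) ∧ IsPr (D h))
    (hmono : ∀ h h', IsFn S h → IsFn S h' → ∀ σ, leF h h' ⊓ D h' σ ≤ D h σ)
    (hnull : ∀ ρ : List ℕ, nullV (infC S D ρ) = ⊤) (h0 : ℕ → ℕ → B) (hh0 : IsFn S h0)
    (m k : ℕ) :
    ∃ h, IsFn S h ∧ leF h0 h = ⊤ ∧ (∀ i < m, h i = h0 i) ∧ smallV k (D h) = ⊤ := by
  classical
  have hpart : ∀ b ∈ S, b ≠ ⊥ → ∃ c ∈ S, c ≠ ⊥ ∧ c ≤ b ∧ (∃ h, IsFn S h ∧ leF h0 h = ⊤ ∧
      (∀ i < m, h i = h0 i) ∧ c ≤ smallV k (D h)) := by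
    intro b hb hb0
    obtain ⟨ρ, hρ, c0, hc0, hc00, hc0b, hc0ρ⟩ := h82_decide hS hh0 hb hb0 m
    have h1 : c0 ≤ smallV k (infC S D ρ) := by
      have h2 : smallV k (infC S D ρ) = ⊤ := by
        have h3 := hnull ρ
        rw [nullV_eq, iInf_eq_top] at h3
        exact h3 k
      rw [h2]
      exact le_top
    have h2 : c0 ≤ ⨆ x : {x : ℕ × Finset (List Bool) // x.2.card * 2 ^ k ≤ 2 ^ x.1},
        ⨅ σ : List Bool, ⨅ _ : σ.length = x.1.1 ∧ σ ∉ x.1.2, (infC S D ρ σ)ᶜ := by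
      refine h1.trans ?_
      unfold smallV
      refine iSup_le fun n => iSup_le fun G => iSup_le fun h => ?_
      exact le_iSup (fun x : {x : ℕ × Finset (List Bool) // x.2.card * 2 ^ k ≤ 2 ^ x.1} =>
        ⨅ σ : List Bool, ⨅ _ : σ.length = x.1.1 ∧ σ ∉ x.1.2, (infC S D ρ σ)ᶜ) ⟨(n, G), h⟩
    obtain ⟨⟨⟨n, G⟩, hG⟩, hne⟩ := exists_inf_ne_bot hc00 h2
    simp only at hG hne
    obtain ⟨c2, hc2, hc20, hc21, f, hf, hfρ, hfW⟩ := h82_kill hS D hD hmono ρ
      (c1 := c0 ⊓ ⨅ σ : List Bool, ⨅ _ : σ.length = n ∧ σ ∉ G, (infC S D ρ σ)ᶜ)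
      (hS.inf_mem hc0 (hS.iInf_mem fun σ => hS.iInf_mem fun _ =>
        hS.compl_mem _ (h82_infC_mem hS D hD ρ σ))) hne
      ((List.finite_length_eq Bool n).toFinset.filter fun σ => σ ∉ G) (by
        intro σ hσ
        rw [Finset.mem_filter, Set.Finite.mem_toFinset] at hσ
        refine inf_le_right.trans ?_
        exact (iInf_le _ σ).trans (iInf_le _ ⟨hσ.1, hσ.2⟩))
    have hc2c0 : c2 ≤ c0 := hc21.trans inf_le_left
    let h : ℕ → ℕ → B := fun i => if i < m then h0 i else maxF h0 f i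
    have hlt : ∀ i < m, h i = h0 i := fun i hi => if_pos hi
    have hge : ∀ i, ¬ i < m → h i = maxF h0 f i := fun i hi => if_neg hi
    have hmx : IsFn S (maxF h0 f) := isFn_maxF hS hh0 hf
    have hh : IsFn S h := by
      constructor
      · intro i j
        by_cases hi : i < m
        · rw [hlt i hi]; exact hh0.mem i j
        · rw [hge i hi]; exact hmx.mem i j
      · intro i j
        by_cases hi : i < m
        · rw [hlt i hi]; exact hh0.mono i j
        · rw [hge i hi]; exact hmx.mono i j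
      · intro i
        by_cases hi : i < m
        · rw [hlt i hi]; exact hh0.tot i
        · rw [hge i hi]; exact hmx.tot i
    have hle0 : leF h0 h = ⊤ := by
      rw [leF_eq_top_iff]
      intro i j
      by_cases hi : i < m
      · rw [hlt i hi]
      · rw [hge i hi]; exact inf_le_left
    have hc2f : c2 ≤ leF f h := by
      unfold leF
      refine le_iInf fun i => le_iInf fun j => ?_
      rw [le_himp_iff]
      by_cases hi : i < m
      · rw [hlt i hi]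
        have hiρ : i < ρ.length := by rw [hρ]; exact hi
        rw [hfρ i hiρ]
        have h3 : c2 ≤ eqN (h0 i) ρ[i] := hc2c0.trans (hc0ρ i hiρ)
        calc c2 ⊓ h0 i j ≤ eqN (h0 i) ρ[i] ⊓ h0 i j := inf_le_inf_right _ h3
          _ = if ρ[i] ≤ j then eqN (h0 i) ρ[i] else ⊥ := eqN_inf (hh0.mono i) _ _
          _ ≤ natN ρ[i] j := by
            unfold natN
            split_ifs
            · exact le_top
            · exact le_rfl
      · rw [hge i hi]
        exact inf_le_right.trans inf_le_right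
    have hkill : ∀ σ : List Bool, σ.length = n → σ ∉ G → c2 ≤ (D h σ)ᶜ := by
      intro σ h3 h4
      have h5 : c2 ≤ (D f σ)ᶜ := hfW σ (by
        rw [Finset.mem_filter, Set.Finite.mem_toFinset]
        exact ⟨h3, h4⟩)
      have h6 : c2 ⊓ D h σ ≤ D f σ :=
        (inf_le_inf_right _ hc2f).trans (hmono f h hf hh σ)
      rw [le_compl_iff_disjoint_right, disjoint_iff, ← le_bot_iff]
      calc c2 ⊓ D h σ ≤ (D f σ)ᶜ ⊓ D f σ := le_inf (inf_le_left.trans h5) h6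
        _ = ⊥ := compl_inf_eq_bot
    refine ⟨c2, hc2, hc20, hc2c0.trans hc0b, h, hh, hle0, hlt, ?_⟩
    unfold smallV
    refine le_iSup_of_le n (le_iSup_of_le G (le_iSup_of_le hG ?_))
    exact le_iInf fun σ => le_iInf fun hσ => hkill σ hσ.1 hσ.2
  obtain ⟨a, ha, haD, -, hdisj, hsup⟩ := exists_partition hc hS
    (fun c => ∃ h, IsFn S h ∧ leF h0 h = ⊤ ∧ (∀ i < m, h i = h0 i) ∧ c ≤ smallV k (D h))
    hpart ⟨h0, hh0, leF_self h0, fun _ _ => rfl, bot_le⟩ hS.top_mem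
  choose hh hh1 hh2 hh3 hh4 using haD
  have hmix : IsFn S (mixF a hh) := isFn_mixF hS ha hdisj hsup hh1
  refine ⟨mixF a hh, hmix, ?_, ?_, ?_⟩
  · rw [leF_eq_top_iff]
    intro i j
    exact iSup_le fun l => inf_le_right.trans (leF_eq_top_iff.1 (hh2 l) i j)
  · intro i hi
    funext j
    have h1 : mixF a hh i j = ⨆ l, a l ⊓ h0 i j := by
      unfold mixF
      refine iSup_congr fun l => ?_
      rw [hh3 l i hi]
    rw [h1, ← iSup_inf_eq, hsup, top_inf_eq]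
  · rw [← top_le_iff, ← hsup]
    refine iSup_le fun l => ?_
    refine (le_inf ?_ (hh4 l)).trans (h82_smallV_mono k (D (mixF a hh)) (D (hh l)))
    rw [h82_le_subV_iff]
    intro σ
    refine (inf_le_inf_right _ ?_).trans (hmono (hh l) (mixF a hh) (hh1 l) hmix σ)
    exact (le_leF_mixF hdisj hh l).trans inf_le_right

theorem lemmaA0 (hc : CCC B) (hS : IsSub S) (D : (ℕ → ℕ → B) → List Bool → B)
    (hD : ∀ h, IsFn S h → (∀ σ, D h σ ∈ S) ∧ IsPr (D h))
    (hmono : ∀ h h', IsFn S h → IsFn S h' → ∀ σ, leF h h' ⊓ D h' σ ≤ D h σ)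
    (hnull : ∀ ρ : List ℕ, nullV (infC S D ρ) = ⊤) :
    ∃ h, IsFn S h ∧ nullV (D h) = ⊤ := by
  classical
  choose nx nx1 nx2 nx3 nx4 using fun (h0 : ℕ → ℕ → B) (hh0 : IsFn S h0) (j : ℕ) =>
    h82_step hc hS D hD hmono hnull h0 hh0 j j
  let H : ℕ → {h : ℕ → ℕ → B // IsFn S h} := fun n =>
    Nat.rec ⟨chk fun _ => 0, isFn_chk hS _⟩ (fun j x => ⟨nx x.1 x.2 j, nx1 x.1 x.2 j⟩) n
  have H1 : ∀ j i l, (H (j + 1)).1 i l ≤ (H j).1 i l := fun j i l =>
    leF_eq_top_iff.1 (nx2 (H j).1 (H j).2 j) i l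
  have H2 : ∀ j, ∀ i < j, (H (j + 1)).1 i = (H j).1 i := fun j i hi =>
    nx3 (H j).1 (H j).2 j i hi
  have H3 : ∀ j, smallV j (D (H (j + 1)).1) = ⊤ := fun j => nx4 (H j).1 (H j).2 j
  have H4 : ∀ i l j d, (H (j + d)).1 i l ≤ (H j).1 i l := by
    intro i l j d
    induction d with
    | zero => exact le_rfl
    | succ d ih => exact (H1 (j + d) i l).trans ih
  have H5 : ∀ i d, (H (i + 1 + d)).1 i = (H (i + 1)).1 i := by
    intro i d
    induction d with
    | zero => rfl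
    | succ d ih =>
      rw [← ih]
      exact H2 (i + 1 + d) i (by omega)
  let h : ℕ → ℕ → B := fun i => (H (i + 1)).1 i
  have hh : IsFn S h :=
    ⟨fun i l => (H (i + 1)).2.mem i l, fun i l => (H (i + 1)).2.mono i l,
      fun i => (H (i + 1)).2.tot i⟩
  have hle : ∀ j, leF (H j).1 h = ⊤ := by
    intro j
    rw [leF_eq_top_iff]
    intro i l
    change (H (i + 1)).1 i l ≤ (H j).1 i l
    rcases le_total j (i + 1) with h1 | h1
    · obtain ⟨d, hd⟩ := Nat.exists_eq_add_of_le h1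
      rw [hd]
      exact H4 i l j d
    · obtain ⟨d, hd⟩ := Nat.exists_eq_add_of_le h1
      rw [hd, H5 i d]
  refine ⟨h, hh, ?_⟩
  rw [nullV_eq, iInf_eq_top]
  intro j
  rw [← top_le_iff]
  refine (le_inf ?_ (H3 j).ge).trans (h82_smallV_mono j (D h) (D (H (j + 1)).1))
  rw [h82_le_subV_iff]
  intro σ
  refine (inf_le_inf_right _ ?_).trans (hmono (H (j + 1)).1 h (H (j + 1)).2 hh σ)
  exact (hle (j + 1)).ge

end Pool.Agent.Helper33.HM
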